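import Pool.Agent.Helper20.EQ.St1
import Pool.Agent.Helper79.LM.M_PL

/-!
# Project EQ (MP_cb927e_an), module BUN: the lossless estimate for bunches
-/

set_option autoImplicit false

open MeasureTheory Set Filter Topology
open scoped ENNReal RealInnerProductSpace

namespace Pool.Agent.Helper45.EQ

open Pool.Agent.Helper20.RG Pool.Agent.Helper20.EQ
open Pool.Agent.Helper68.LM (Pl BB Bd Av HL ft fm DQ)
open Pool.Agent.Helper68.EP (elt GapP)

theorem psi_meas (s : ℝ) (m m' V : ℕ) : Measurable (Psi s m m' V) := by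
  unfold Psi
  have h1 : Measurable (fun ξ : Pl => |⟪E s, ξ⟫|) := by
    have h : Continuous (fun ξ : Pl => |⟪E s, ξ⟫|) := by fun_prop
    exact h.measurable
  have h2 : Measurable (fun ξ : Pl => ‖ξ‖) := measurable_norm
  exact ((measurable_const.min (h2.mul_const _)).mul (measurable_const.min (measurable_const.div h2))).mul
    ((measurable_const.min (h1.const_mul _)).mul (measurable_const.div (h1.const_add _)))

theorem hBUN (hMXJ : StMXJ) (hOCN : StOCN) (hBNS : StBNS) (hSYS : StSYS)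
    (hGPG : Pool.Agent.Helper68.EP.StGPG) : StBUN := by
  intro φ τ A p c hG hA hGP hp C₅
  obtain ⟨C1, hC1, hM⟩ := hMXJ
  obtain ⟨C2, hC2, hO⟩ := hOCN 200 (by norm_num)
  obtain ⟨C3, hC3, hB⟩ := hBNS φ τ A p hG hA hGP hp C₅
  refine ⟨C1 * C2 * C3, by positivity, ?_⟩
  intro Y h g hY hh hg
  have hgap := hGPG τ A p hA (by linarith) hGP
  have hA1 : 0 < A ^ (1 / p) := Real.rpow_pos_of_pos hA _
  have hsys : ∀ u : ℕ, 2 ≤ u → Sys u (sl τ u) (ce c φ u) (mm τ u) (mp τ u) 200 (‖c‖ + |φ 0| + 3)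
      (KA (A ^ (1 / p)) p u) (A ^ (1 / p)) p := by
    intro u hu
    exact (hSYS φ τ (A ^ (1 / p)) p c hG hgap hA1 (by linarith) u (by omega)).2 hu
  obtain ⟨hftm, hpl⟩ := Helper79.LM.hPL g hg
  -- the integrands
  set V : ℕ → ℕ → ℕ := fun u j => C₅ * (Wt τ u Y (sl τ u j) + h) with hV
  set F : ℕ → ℤ → ℕ → Pl → ℝ≥0∞ := fun u k j ξ =>
    ENNReal.ofReal (C1 * Psi (sl τ u j) (mm τ u j) (mp τ u j) (V u j) ((2 : ℝ) ^ k • ξ)) *
      ‖ft g ξ‖ₑ ^ 2 with hF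
  have hFm : ∀ u k j, Measurable (F u k j) := by
    intro u k j
    have h1 : Measurable (fun ξ : Pl => Psi (sl τ u j) (mm τ u j) (mp τ u j) (V u j)
        ((2 : ℝ) ^ k • ξ)) := (psi_meas _ _ _ _).comp (measurable_const_smul _)
    exact ((h1.const_mul C1).ennreal_ofReal).mul (hftm.enorm.pow_const 2)
  set G : ℕ → Pl → ℝ≥0∞ := fun u ξ => ∑' k : ℤ, ∑ j ∈ Finset.range (2 ^ u), F u k j ξ with hGdef
  have hGm : ∀ u, Measurable (G u) := by
    intro u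
    exact Measurable.tsum (fun k => Finset.measurable_sum _ (fun j _ => hFm u k j))
  have hL : ∀ u : ℕ, 2 ≤ u →
      ∑' k : ℤ, ∑ j ∈ Finset.range (2 ^ u), ∫⁻ x, MD (sl τ u j) (ce c φ u j) (mm τ u j) (mp τ u j)
        (V u j) k g x ^ 2 ≤ ∫⁻ ξ, G u ξ := by
    intro u hu
    calc ∑' k : ℤ, ∑ j ∈ Finset.range (2 ^ u), ∫⁻ x, MD (sl τ u j) (ce c φ u j) (mm τ u j) (mp τ u j)
          (V u j) k g x ^ 2
        ≤ ∑' k : ℤ, ∑ j ∈ Finset.range (2 ^ u), ∫⁻ ξ, F u k j ξ := by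
          apply ENNReal.tsum_le_tsum
          intro k
          apply Finset.sum_le_sum
          intro j hj
          have hj' := Finset.mem_range.1 hj
          exact hM (sl τ u j) (ce c φ u j) (mm τ u j) (mp τ u j) (V u j) k g (hG.1 _)
            ((hsys u hu).mm j hj').1 hg
      _ = ∑' k : ℤ, ∫⁻ ξ, ∑ j ∈ Finset.range (2 ^ u), F u k j ξ := by
          apply tsum_congr
          intro k
          rw [lintegral_finsetSum]
          intro j _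
          exact hFm u k j
      _ = ∫⁻ ξ, G u ξ := by
          rw [hGdef]
          rw [lintegral_tsum]
          intro k
          exact (Finset.measurable_sum _ (fun j _ => hFm u k j)).aemeasurable
  -- pointwise
  have hpt : ∀ ξ : Pl, ξ ≠ 0 →
      ∑' u : ℕ, (if 2 ≤ u ∧ Y ^ 3 ≤ (2 : ℝ) ^ u then ENNReal.ofReal ((2 : ℝ) ^ (-(p * (u : ℝ)))) * G u ξ
        else 0) ≤
      ENNReal.ofReal (C1 * C2 * C3 * h * Y ^ (-(p ^ 2 / (p + 1)))) * ‖ft g ξ‖ₑ ^ 2 := by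
    intro ξ hξ
    have hterm : ∀ u : ℕ,
        (if 2 ≤ u ∧ Y ^ 3 ≤ (2 : ℝ) ^ u then ENNReal.ofReal ((2 : ℝ) ^ (-(p * (u : ℝ)))) * G u ξ
          else 0) ≤
        ENNReal.ofReal (C1 * C2) * (if 1 ≤ u ∧ Y ^ 3 ≤ (2 : ℝ) ^ u then
          ENNReal.ofReal ((2 : ℝ) ^ (-(p * (u : ℝ))) *
          (Tb τ p u Y (th ξ) h + u + 1 + ∑ j ∈ (Finset.range (2 ^ u)).filter
            (fun j => |sl τ u j - th ξ| ≤ (2 : ℝ) ^ (-(Tb τ p u Y (th ξ) h : ℤ))),
              ((C₅ * (Wt τ u Y (sl τ u j) + h) : ℕ) + 1 : ℝ))) else 0) * ‖ft g ξ‖ₑ ^ 2 := by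
      intro u
      by_cases hc : 2 ≤ u ∧ Y ^ 3 ≤ (2 : ℝ) ^ u
      · rw [if_pos hc, if_pos ⟨by omega, hc.2⟩]
        have h1 : G u ξ = ENNReal.ofReal C1 * (∑' k : ℤ, ∑ j ∈ Finset.range (2 ^ u),
            ENNReal.ofReal (Psi (sl τ u j) (mm τ u j) (mp τ u j) (V u j) ((2 : ℝ) ^ k • ξ))) *
            ‖ft g ξ‖ₑ ^ 2 := by
          rw [hGdef]
          dsimp only
          rw [← ENNReal.tsum_mul_left, ← ENNReal.tsum_mul_right]
          apply tsum_congr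
          intro k
          rw [Finset.mul_sum, Finset.sum_mul]
          apply Finset.sum_congr rfl
          intro j _
          rw [hF]
          dsimp only
          rw [ENNReal.ofReal_mul hC1.le]
        have h2 := hO u (sl τ u) (ce c φ u) (mm τ u) (mp τ u) _ _ _ _ (hsys u hc.1) (V u)
          (Tb τ p u Y (th ξ) h) ξ hξ
        rw [h1]
        have hpos : (0 : ℝ) ≤ (Tb τ p u Y (th ξ) h : ℝ) + u + 1 + ∑ j ∈ (Finset.range (2 ^ u)).filter
            (fun j => |sl τ u j - th ξ| ≤ (2 : ℝ) ^ (-(Tb τ p u Y (th ξ) h : ℤ))),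
              ((C₅ * (Wt τ u Y (sl τ u j) + h) : ℕ) + 1 : ℝ) := by positivity
        calc ENNReal.ofReal ((2 : ℝ) ^ (-(p * (u : ℝ)))) * (ENNReal.ofReal C1 *
              (∑' k : ℤ, ∑ j ∈ Finset.range (2 ^ u),
              ENNReal.ofReal (Psi (sl τ u j) (mm τ u j) (mp τ u j) (V u j) ((2 : ℝ) ^ k • ξ))) *
              ‖ft g ξ‖ₑ ^ 2)
            ≤ ENNReal.ofReal ((2 : ℝ) ^ (-(p * (u : ℝ)))) * (ENNReal.ofReal C1 *
              ENNReal.ofReal (C2 * ((Tb τ p u Y (th ξ) h : ℝ) + u + 1 +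
                ∑ j ∈ (Finset.range (2 ^ u)).filter
                (fun j => |sl τ u j - th ξ| ≤ (2 : ℝ) ^ (-(Tb τ p u Y (th ξ) h : ℤ))),
                ((C₅ * (Wt τ u Y (sl τ u j) + h) : ℕ) + 1 : ℝ))) * ‖ft g ξ‖ₑ ^ 2) := by
              gcongr
          _ = _ := by
              rw [ENNReal.ofReal_mul hC1.le, ENNReal.ofReal_mul hC2.le,
                ENNReal.ofReal_mul (by positivity)]
              ring
      · rw [if_neg hc]; exact zero_le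
    calc ∑' u : ℕ, (if 2 ≤ u ∧ Y ^ 3 ≤ (2 : ℝ) ^ u then ENNReal.ofReal ((2 : ℝ) ^ (-(p * (u : ℝ)))) *
          G u ξ else 0)
        ≤ ∑' u : ℕ, ENNReal.ofReal (C1 * C2) * (if 1 ≤ u ∧ Y ^ 3 ≤ (2 : ℝ) ^ u then
          ENNReal.ofReal ((2 : ℝ) ^ (-(p * (u : ℝ))) *
          (Tb τ p u Y (th ξ) h + u + 1 + ∑ j ∈ (Finset.range (2 ^ u)).filter
            (fun j => |sl τ u j - th ξ| ≤ (2 : ℝ) ^ (-(Tb τ p u Y (th ξ) h : ℤ))),
              ((C₅ * (Wt τ u Y (sl τ u j) + h) : ℕ) + 1 : ℝ))) else 0) * ‖ft g ξ‖ₑ ^ 2 :=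
          ENNReal.tsum_le_tsum hterm
      _ = ENNReal.ofReal (C1 * C2) * (∑' u : ℕ, (if 1 ≤ u ∧ Y ^ 3 ≤ (2 : ℝ) ^ u then
          ENNReal.ofReal ((2 : ℝ) ^ (-(p * (u : ℝ))) *
          (Tb τ p u Y (th ξ) h + u + 1 + ∑ j ∈ (Finset.range (2 ^ u)).filter
            (fun j => |sl τ u j - th ξ| ≤ (2 : ℝ) ^ (-(Tb τ p u Y (th ξ) h : ℤ))),
              ((C₅ * (Wt τ u Y (sl τ u j) + h) : ℕ) + 1 : ℝ))) else 0)) * ‖ft g ξ‖ₑ ^ 2 := by
          rw [ENNReal.tsum_mul_right, ENNReal.tsum_mul_left]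
      _ ≤ ENNReal.ofReal (C1 * C2) * ENNReal.ofReal (C3 * h * Y ^ (-(p ^ 2 / (p + 1)))) *
          ‖ft g ξ‖ₑ ^ 2 := by
          gcongr
          exact hB Y h (th ξ) hY hh
      _ = _ := by
          rw [← ENNReal.ofReal_mul (by positivity)]
          congr 2
          ring
  have hae : ∀ᵐ ξ : Pl, ξ ≠ 0 := by
    rw [ae_iff]
    simp
  calc ∑' u : ℕ, (if 2 ≤ u ∧ Y ^ 3 ≤ (2 : ℝ) ^ u then ENNReal.ofReal ((2 : ℝ) ^ (-(p * (u : ℝ)))) *
        ∑' k : ℤ, ∑ j ∈ Finset.range (2 ^ u), ∫⁻ x, MD (sl τ u j) (ce c φ u j) (mm τ u j) (mp τ u j)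
          (C₅ * (Wt τ u Y (sl τ u j) + h)) k g x ^ 2 else 0)
      ≤ ∑' u : ℕ, ∫⁻ ξ, (if 2 ≤ u ∧ Y ^ 3 ≤ (2 : ℝ) ^ u then
          ENNReal.ofReal ((2 : ℝ) ^ (-(p * (u : ℝ)))) * G u ξ else 0) := by
        apply ENNReal.tsum_le_tsum
        intro u
        by_cases hc : 2 ≤ u ∧ Y ^ 3 ≤ (2 : ℝ) ^ u
        · simp only [if_pos hc]
          rw [lintegral_const_mul _ (hGm u)]
          gcongr
          exact hL u hc.1
        · simp only [if_neg hc]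
          exact zero_le
    _ = ∫⁻ ξ, ∑' u : ℕ, (if 2 ≤ u ∧ Y ^ 3 ≤ (2 : ℝ) ^ u then
          ENNReal.ofReal ((2 : ℝ) ^ (-(p * (u : ℝ)))) * G u ξ else 0) := by
        rw [lintegral_tsum]
        intro u
        by_cases hc : 2 ≤ u ∧ Y ^ 3 ≤ (2 : ℝ) ^ u
        · simp only [if_pos hc]
          exact ((hGm u).const_mul _).aemeasurable
        · simp only [if_neg hc]
          exact aemeasurable_const
    _ ≤ ∫⁻ ξ, ENNReal.ofReal (C1 * C2 * C3 * h * Y ^ (-(p ^ 2 / (p + 1)))) * ‖ft g ξ‖ₑ ^ 2 :=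
        lintegral_mono_ae (hae.mono hpt)
    _ = _ := by
        rw [lintegral_const_mul _ (hftm.enorm.pow_const 2), hpl]

end Pool.Agent.Helper45.EQ
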