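import Pool.Agent.Helper20.EQ.St1

/-!
# Project EQ (MP_cb927e_an), module MIM: the multiplier sum of one class
-/

set_option autoImplicit false

open MeasureTheory Set Filter Topology
open scoped ENNReal RealInnerProductSpace

namespace Pool.Agent.Helper45.EQ

open Pool.Agent.Helper20.RG Pool.Agent.Helper20.EQ
open Pool.Agent.Helper68.LM (Pl BB Bd Av HL ft fm DQ)
open Pool.Agent.Helper68.EP (elt GapP)

theorem inner_E (hPT : StPT) (s : ℝ) (ξ : Pl) : ⟪E s, ξ⟫ = ξ 0 + s * ξ 1 := by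
  have h := hPT.2.2.2.1 (E s) ξ
  have h1 := hPT.1 1 s
  have h2 : (E s) 0 = 1 := h1.1
  have h3 : (E s) 1 = s := h1.2
  rw [h, h2, h3]; ring

/-- the far chords -/
theorem far_low (hPT : StPT) (s : ℝ) (ξ : Pl) (T : ℕ) (hs : |s| ≤ 1)
    (hfar : (2 : ℝ) ^ (-(T : ℤ)) < |s - th ξ|) :
    (2 : ℝ) ^ (-(T : ℤ)) * ‖ξ‖ / 4 ≤ |⟪E s, ξ⟫| := by
  rw [inner_E hPT]
  have hT0 : (0 : ℝ) < (2 : ℝ) ^ (-(T : ℤ)) := zpow_pos (by norm_num) _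
  have hT1 : (2 : ℝ) ^ (-(T : ℤ)) ≤ 1 := zpow_le_one_of_nonpos₀ (by norm_num) (by omega)
  have hr : 0 ≤ ‖ξ‖ := norm_nonneg _
  by_cases h : ‖ξ‖ / 4 ≤ |ξ 1|
  · have hth : th ξ = -(ξ 0 / ξ 1) := by unfold th; rw [if_pos h]
    by_cases h1 : ξ 1 = 0
    · rw [h1, abs_zero] at h
      have h2 : ‖ξ‖ = 0 := by linarith
      rw [h2]; simp
    · have h3 : ξ 0 + s * ξ 1 = ξ 1 * (s - th ξ) := by
        rw [hth]; field_simp; ring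
      rw [h3, abs_mul]
      have h4 : ‖ξ‖ / 4 * (2 : ℝ) ^ (-(T : ℤ)) ≤ |ξ 1| * |s - th ξ| :=
        mul_le_mul h hfar.le hT0.le (abs_nonneg _)
      linarith
  · rw [not_le] at h
    have h5 := (hPT.2.2.1 ξ).2.2.1
    have h6 : |s * ξ 1| ≤ |ξ 1| := by
      rw [abs_mul]
      calc |s| * |ξ 1| ≤ 1 * |ξ 1| := by gcongr
        _ = |ξ 1| := one_mul _
    have h7 : |ξ 0| - |s * ξ 1| ≤ |ξ 0 + s * ξ 1| := by
      have h8 := abs_sub_abs_le_abs_sub (ξ 0) (-(s * ξ 1))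
      rw [abs_neg, sub_neg_eq_add] at h8
      exact h8
    nlinarith

theorem pso_nonneg (s : ℝ) (m m' : ℕ) (ζ : Pl) : 0 ≤ Pso s m m' ζ := by
  unfold Pso
  have h : 0 ≤ |⟪E s, ζ⟫| := abs_nonneg _
  positivity

theorem pso_le_one (s : ℝ) (m m' : ℕ) (ζ : Pl) : Pso s m m' ζ ≤ 1 := by
  unfold Pso
  have h : 0 ≤ |⟪E s, ζ⟫| := abs_nonneg _
  have h1 : min 1 (‖ζ‖ * (2 : ℝ) ^ (-(m' : ℤ))) ≤ 1 := min_le_left _ _
  have h2 : min 1 ((2 : ℝ) ^ m / ‖ζ‖) ≤ 1 := min_le_left _ _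
  have h3 : 1 / (1 + |⟪E s, ζ⟫|) ≤ 1 := by
    rw [div_le_one (by linarith)]; linarith
  have h4 : 0 ≤ min 1 (‖ζ‖ * (2 : ℝ) ^ (-(m' : ℤ))) := by positivity
  have h5 : 0 ≤ min 1 ((2 : ℝ) ^ m / ‖ζ‖) := by positivity
  have h6 : 0 ≤ 1 / (1 + |⟪E s, ζ⟫|) := by positivity
  calc min 1 (‖ζ‖ * (2 : ℝ) ^ (-(m' : ℤ))) * min 1 ((2 : ℝ) ^ m / ‖ζ‖) * (1 / (1 + |⟪E s, ζ⟫|))
      ≤ 1 * 1 * 1 := by gcongr
    _ = 1 := by norm_num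

theorem pso_le_norm (s : ℝ) (m m' : ℕ) (ζ : Pl) : Pso s m m' ζ ≤ ‖ζ‖ := by
  unfold Pso
  have h : 0 ≤ |⟪E s, ζ⟫| := abs_nonneg _
  have h0 : (2 : ℝ) ^ (-(m' : ℤ)) ≤ 1 := zpow_le_one_of_nonpos₀ (by norm_num) (by omega)
  have h1 : min 1 (‖ζ‖ * (2 : ℝ) ^ (-(m' : ℤ))) ≤ ‖ζ‖ := by
    refine (min_le_right _ _).trans ?_
    calc ‖ζ‖ * (2 : ℝ) ^ (-(m' : ℤ)) ≤ ‖ζ‖ * 1 := by gcongr
      _ = ‖ζ‖ := mul_one _
  have h2 : min 1 ((2 : ℝ) ^ m / ‖ζ‖) ≤ 1 := min_le_left _ _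
  have h3 : 1 / (1 + |⟪E s, ζ⟫|) ≤ 1 := by
    rw [div_le_one (by linarith)]; linarith
  have h4 : 0 ≤ min 1 (‖ζ‖ * (2 : ℝ) ^ (-(m' : ℤ))) := by positivity
  have h5 : 0 ≤ min 1 ((2 : ℝ) ^ m / ‖ζ‖) := by positivity
  have h6 : 0 ≤ 1 / (1 + |⟪E s, ζ⟫|) := by positivity
  calc min 1 (‖ζ‖ * (2 : ℝ) ^ (-(m' : ℤ))) * min 1 ((2 : ℝ) ^ m / ‖ζ‖) * (1 / (1 + |⟪E s, ζ⟫|))
      ≤ ‖ζ‖ * 1 * 1 := by gcongr
    _ = ‖ζ‖ := by ring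

theorem pso_le_inv (s : ℝ) (m m' : ℕ) (ζ : Pl) : Pso s m m' ζ ≤ (2 : ℝ) ^ m / ‖ζ‖ := by
  unfold Pso
  have h : 0 ≤ |⟪E s, ζ⟫| := abs_nonneg _
  have h1 : min 1 (‖ζ‖ * (2 : ℝ) ^ (-(m' : ℤ))) ≤ 1 := min_le_left _ _
  have h2 : min 1 ((2 : ℝ) ^ m / ‖ζ‖) ≤ (2 : ℝ) ^ m / ‖ζ‖ := min_le_right _ _
  have h3 : 1 / (1 + |⟪E s, ζ⟫|) ≤ 1 := by
    rw [div_le_one (by linarith)]; linarith
  have h4 : 0 ≤ min 1 (‖ζ‖ * (2 : ℝ) ^ (-(m' : ℤ))) := by positivity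
  have h5 : 0 ≤ min 1 ((2 : ℝ) ^ m / ‖ζ‖) := by positivity
  have h6 : 0 ≤ 1 / (1 + |⟪E s, ζ⟫|) := by positivity
  calc min 1 (‖ζ‖ * (2 : ℝ) ^ (-(m' : ℤ))) * min 1 ((2 : ℝ) ^ m / ‖ζ‖) * (1 / (1 + |⟪E s, ζ⟫|))
      ≤ 1 * ((2 : ℝ) ^ m / ‖ζ‖) * 1 := by gcongr
    _ = (2 : ℝ) ^ m / ‖ζ‖ := by ring

theorem pso_le_E (s : ℝ) (m m' : ℕ) (ζ : Pl) : Pso s m m' ζ ≤ 1 / (1 + |⟪E s, ζ⟫|) := by
  unfold Pso
  have h : 0 ≤ |⟪E s, ζ⟫| := abs_nonneg _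
  have h1 : min 1 (‖ζ‖ * (2 : ℝ) ^ (-(m' : ℤ))) ≤ 1 := min_le_left _ _
  have h2 : min 1 ((2 : ℝ) ^ m / ‖ζ‖) ≤ 1 := min_le_left _ _
  have h4 : 0 ≤ min 1 (‖ζ‖ * (2 : ℝ) ^ (-(m' : ℤ))) := by positivity
  have h5 : 0 ≤ min 1 ((2 : ℝ) ^ m / ‖ζ‖) := by positivity
  have h6 : 0 ≤ 1 / (1 + |⟪E s, ζ⟫|) := by positivity
  calc min 1 (‖ζ‖ * (2 : ℝ) ^ (-(m' : ℤ))) * min 1 ((2 : ℝ) ^ m / ‖ζ‖) * (1 / (1 + |⟪E s, ζ⟫|))
      ≤ 1 * 1 * (1 / (1 + |⟪E s, ζ⟫|)) := by gcongr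
    _ = 1 / (1 + |⟪E s, ζ⟫|) := by ring

theorem norm_sc (k : ℤ) (ξ : Pl) : ‖(2 : ℝ) ^ k • ξ‖ = (2 : ℝ) ^ k * ‖ξ‖ := by
  rw [norm_smul, Real.norm_eq_abs, abs_of_pos (zpow_pos (by norm_num) k)]

theorem inner_sc (k : ℤ) (s : ℝ) (ξ : Pl) : |⟪E s, (2 : ℝ) ^ k • ξ⟫| = (2 : ℝ) ^ k * |⟪E s, ξ⟫| := by
  rw [inner_smul_right, abs_mul, abs_of_pos (zpow_pos (by norm_num) k)]

/-- one chord of small flatness -/
theorem one_chord (hOCT : StOCT) (s : ℝ) (m m' Q : ℕ) (hm : m ≤ Q) (ξ : Pl) (hξ : ξ ≠ 0) :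
    ∑' k : ℤ, ENNReal.ofReal (Pso s m m' ((2 : ℝ) ^ k • ξ)) ≤ ENNReal.ofReal ((Q : ℝ) + 8) := by
  have hr : 0 < ‖ξ‖ := norm_pos_iff.2 hξ
  have h := hOCT (fun k : ℤ => ENNReal.ofReal (Pso s m m' ((2 : ℝ) ^ k • ξ))) ‖ξ‖ 1 0 (Q : ℤ) hr
    (by norm_num) (by omega) ?_ ?_ ?_
  · refine h.trans (ENNReal.ofReal_le_ofReal ?_)
    push_cast; linarith
  · intro k
    exact ENNReal.ofReal_le_ofReal (pso_le_one _ _ _ _)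
  · intro k _
    apply ENNReal.ofReal_le_ofReal
    refine (pso_le_norm _ _ _ _).trans ?_
    rw [norm_sc]; simp
  · intro k _
    apply ENNReal.ofReal_le_ofReal
    refine (pso_le_inv _ _ _ _).trans ?_
    rw [norm_sc, one_mul]
    have h1 : (2 : ℝ) ^ m ≤ (2 : ℝ) ^ ((Q : ℤ)) := by
      rw [zpow_natCast]; exact pow_le_pow_right₀ (by norm_num) hm
    have h2 : 0 < (2 : ℝ) ^ k * ‖ξ‖ := by positivity
    gcongr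

/-- the far chords, for the multipliers `F j ≤ Pso j` -/
theorem far_sum (hPT : StPT) (hOCT : StOCT) (u : ℕ) (s : ℕ → ℝ) (m m' : ℕ → ℕ) (C' : ℝ)
    (F : ℕ → Pl → ℝ) (hF0 : ∀ j ζ, 0 ≤ F j ζ) (hF : ∀ j ζ, F j ζ ≤ Pso (s j) (m j) (m' j) ζ)
    (hC' : 1 ≤ C') (hs : ∀ j < 2 ^ u, |s j| ≤ 1)
    (hps : ∀ ζ : Pl, ζ ≠ 0 → ∑ j ∈ Finset.range (2 ^ u), Pso (s j) (m j) (m' j) ζ ≤ C') (T : ℕ) (ξ : Pl)
    (hξ : ξ ≠ 0) :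
    ∑' k : ℤ, ∑ j ∈ (Finset.range (2 ^ u)).filter (fun j => ¬ |s j - th ξ| ≤ (2 : ℝ) ^ (-(T : ℤ))),
      ENNReal.ofReal (F j ((2 : ℝ) ^ k • ξ)) ≤
      ENNReal.ofReal (C' * (T + 2 * u + 10)) := by
  have hr : 0 < ‖ξ‖ := norm_pos_iff.2 hξ
  set J : Finset ℕ := (Finset.range (2 ^ u)).filter
    (fun j => ¬ |s j - th ξ| ≤ (2 : ℝ) ^ (-(T : ℤ))) with hJ
  have hJsub : J ⊆ Finset.range (2 ^ u) := Finset.filter_subset _ _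
  have hcard : (J.card : ℝ) ≤ (2 : ℝ) ^ u := by
    have h1 := Finset.card_le_card hJsub
    rw [Finset.card_range] at h1
    exact_mod_cast h1
  have hsumeq : ∀ k : ℤ, ∑ j ∈ J, ENNReal.ofReal (F j ((2 : ℝ) ^ k • ξ)) =
      ENNReal.ofReal (∑ j ∈ J, F j ((2 : ℝ) ^ k • ξ)) := by
    intro k
    rw [ENNReal.ofReal_sum_of_nonneg (fun j _ => hF0 j _)]
  have hconst : ∀ (k : ℤ) (B : ℝ), 0 ≤ B → (∀ j ∈ J, F j ((2 : ℝ) ^ k • ξ) ≤ B) →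
      ∑ j ∈ J, F j ((2 : ℝ) ^ k • ξ) ≤ (2 : ℝ) ^ u * B := by
    intro k B hB0 hB
    calc ∑ j ∈ J, F j ((2 : ℝ) ^ k • ξ) ≤ ∑ _j ∈ J, B := Finset.sum_le_sum hB
      _ = J.card * B := by rw [Finset.sum_const, nsmul_eq_mul]
      _ ≤ (2 : ℝ) ^ u * B := by gcongr
  have h := hOCT (fun k : ℤ => ∑ j ∈ J, ENNReal.ofReal (F j ((2 : ℝ) ^ k • ξ))) ‖ξ‖ C'
    (-(u : ℤ)) ((T + u + 2 : ℕ) : ℤ) hr (by linarith) (by omega) ?_ ?_ ?_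
  · refine h.trans (ENNReal.ofReal_le_ofReal ?_)
    have h3 : (((T + u + 2 : ℕ) : ℤ) : ℝ) - ((-(u : ℤ) : ℤ) : ℝ) + 8 = T + 2 * u + 10 := by
      push_cast; ring
    rw [h3]
  · intro k
    rw [hsumeq k]
    apply ENNReal.ofReal_le_ofReal
    have hne : (2 : ℝ) ^ k • ξ ≠ 0 := by
      rw [← norm_pos_iff, norm_sc]; positivity
    calc ∑ j ∈ J, F j ((2 : ℝ) ^ k • ξ)
        ≤ ∑ j ∈ J, Pso (s j) (m j) (m' j) ((2 : ℝ) ^ k • ξ) := Finset.sum_le_sum (fun j _ => hF j _)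
      _ ≤ ∑ j ∈ Finset.range (2 ^ u), Pso (s j) (m j) (m' j) ((2 : ℝ) ^ k • ξ) :=
          Finset.sum_le_sum_of_subset_of_nonneg hJsub (fun j _ _ => pso_nonneg _ _ _ _)
      _ ≤ C' := hps _ hne
  · intro k _
    rw [hsumeq k]
    apply ENNReal.ofReal_le_ofReal
    have h4 := hconst k ((2 : ℝ) ^ k * ‖ξ‖) (by positivity) (by
      intro j _
      refine (hF j _).trans ((pso_le_norm _ _ _ _).trans ?_)
      rw [norm_sc])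
    have h5 : (2 : ℝ) ^ k * ‖ξ‖ / (2 : ℝ) ^ (-(u : ℤ)) = (2 : ℝ) ^ u * ((2 : ℝ) ^ k * ‖ξ‖) := by
      rw [zpow_neg, zpow_natCast, div_inv_eq_mul, mul_comm]
    rw [h5]
    have h6 : 0 ≤ (2 : ℝ) ^ u * ((2 : ℝ) ^ k * ‖ξ‖) := by positivity
    nlinarith
  · intro k _
    rw [hsumeq k]
    apply ENNReal.ofReal_le_ofReal
    have hx : 0 < (2 : ℝ) ^ k * ‖ξ‖ := by positivity
    have hT0 : (0 : ℝ) < (2 : ℝ) ^ (-(T : ℤ)) := zpow_pos (by norm_num) _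
    have h4 := hconst k ((2 : ℝ) ^ (T + 2) / ((2 : ℝ) ^ k * ‖ξ‖)) (by positivity) (by
      intro j hj
      rw [hJ, Finset.mem_filter, Finset.mem_range, not_le] at hj
      refine (hF j _).trans ((pso_le_E _ _ _ _).trans ?_)
      rw [inner_sc]
      have h7 := far_low hPT (s j) ξ T (hs j hj.1) hj.2
      have h8 : (2 : ℝ) ^ (-(T : ℤ)) * ((2 : ℝ) ^ k * ‖ξ‖) / 4 ≤ (2 : ℝ) ^ k * |⟪E (s j), ξ⟫| := by
        have h9 : (0 : ℝ) < (2 : ℝ) ^ k := by positivity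
        calc (2 : ℝ) ^ (-(T : ℤ)) * ((2 : ℝ) ^ k * ‖ξ‖) / 4
            = (2 : ℝ) ^ k * ((2 : ℝ) ^ (-(T : ℤ)) * ‖ξ‖ / 4) := by ring
          _ ≤ (2 : ℝ) ^ k * |⟪E (s j), ξ⟫| := by gcongr
      calc 1 / (1 + (2 : ℝ) ^ k * |⟪E (s j), ξ⟫|)
          ≤ 1 / ((2 : ℝ) ^ (-(T : ℤ)) * ((2 : ℝ) ^ k * ‖ξ‖) / 4) := by
            apply one_div_le_one_div_of_le
            · positivity
            · linarith
        _ = (2 : ℝ) ^ (T + 2) / ((2 : ℝ) ^ k * ‖ξ‖) := by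
            rw [zpow_neg, zpow_natCast, pow_add]
            field_simp
            norm_num)
    have h5 : (2 : ℝ) ^ u * ((2 : ℝ) ^ (T + 2) / ((2 : ℝ) ^ k * ‖ξ‖)) =
        (2 : ℝ) ^ (((T + u + 2 : ℕ) : ℤ)) / ((2 : ℝ) ^ k * ‖ξ‖) := by
      rw [zpow_natCast, pow_add, pow_add, pow_add]; ring
    rw [h5] at h4
    have h6 : 0 ≤ (2 : ℝ) ^ (((T + u + 2 : ℕ) : ℤ)) / ((2 : ℝ) ^ k * ‖ξ‖) := by positivity
    nlinarith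

theorem elt_anti (hCN : StCN) {φ τ : ℝ → ℝ} (hG : Graph φ τ) (θ : ℝ) : Antitone (elt τ θ) :=
  antitone_nat_of_succ_le (fun i => (hCN φ τ hG 0 i θ).2.2.2.2.1)

/-- the set of the right side -/
theorem lev_set (hCN : StCN) {φ τ : ℝ → ℝ} (hG : Graph φ τ) {A p : ℝ} (hp : 1 < p) (hGP : GapP A p τ)
    (u : ℕ) (θ : ℝ) :
    (2 : ℝ) ^ u * elt τ θ ({i : ℕ | 1 ≤ i ∧ 1 ≤ (2 : ℝ) ^ u * elt τ θ i}.ncard + 1) < 1 := by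
  have hanti := elt_anti hCN hG θ
  have h0 : ∀ i, 0 ≤ elt τ θ i := fun i => (hCN φ τ hG 0 i θ).2.2.1
  set S : Set ℕ := {i : ℕ | 1 ≤ i ∧ 1 ≤ (2 : ℝ) ^ u * elt τ θ i} with hS
  have h2u : (0 : ℝ) < (2 : ℝ) ^ u := by positivity
  have hfin : S.Finite := by
    apply (Set.finite_Iic (⌈A * ((2 : ℝ) ^ u) ^ p⌉₊)).subset
    rintro i ⟨_, hi2⟩
    rw [Set.mem_Iic]
    have h3 : ((2 : ℝ) ^ u)⁻¹ ≤ elt τ θ i := by
      rw [inv_le_iff_one_le_mul₀' h2u]; exact hi2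
    have h4 : (i : ℝ) * (((2 : ℝ) ^ u)⁻¹) ^ p ≤ A := by
      calc (i : ℝ) * (((2 : ℝ) ^ u)⁻¹) ^ p = ∑ _i' ∈ Finset.range i, (((2 : ℝ) ^ u)⁻¹) ^ p := by
            rw [Finset.sum_const, Finset.card_range, nsmul_eq_mul]
        _ ≤ ∑ i' ∈ Finset.range i, elt τ θ (i' + 1) ^ p := by
            apply Finset.sum_le_sum
            intro i' hi'
            apply Real.rpow_le_rpow (by positivity) _ (by linarith)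
            exact h3.trans (hanti (Finset.mem_range.1 hi'))
        _ ≤ A := hGP θ i
    have h5 : (i : ℝ) ≤ A * ((2 : ℝ) ^ u) ^ p := by
      rw [Real.inv_rpow h2u.le] at h4
      have h6 : 0 < ((2 : ℝ) ^ u) ^ p := Real.rpow_pos_of_pos h2u _
      rw [mul_inv_le_iff₀ h6] at h4
      exact h4
    exact_mod_cast h5.trans (Nat.le_ceil _)
  by_contra hc
  rw [not_lt] at hc
  have hsub : (Finset.Icc 1 (S.ncard + 1) : Set ℕ) ⊆ S := by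
    intro i hi
    rw [Finset.coe_Icc, Set.mem_Icc] at hi
    refine ⟨hi.1, hc.trans ?_⟩
    gcongr
    exact hanti hi.2
  have h7 := Set.ncard_le_ncard hsub hfin
  rw [Set.ncard_coe_finset, Nat.card_Icc] at h7
  omega

theorem hMIM (hPT : StPT) (hPSM : StPSM) (hOCT : StOCT) (hCN : StCN) (hCQ : StCQ) (hSYS : StSYS)
    (hGPG : Pool.Agent.Helper68.EP.StGPG) : StMIM := by
  intro φ τ A p hG hA hGP hp
  obtain ⟨C₁, hC₁, hP⟩ := hPSM 200 (by norm_num)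
  set C' : ℝ := max C₁ 1 with hC'
  have hC'1 : 1 ≤ C' := le_max_right _ _
  refine ⟨20 * (C' + 1), by linarith, ?_⟩
  intro u hu ξ hξ
  have hgap := hGPG τ A p hA (by linarith) hGP
  have hA1 : 0 < A ^ (1 / p) := Real.rpow_pos_of_pos hA _
  have hsys := (hSYS φ τ (A ^ (1 / p)) p 0 hG hgap hA1 (by linarith) u (by omega)).2 hu
  have hps : ∀ ζ : Pl, ζ ≠ 0 →
      ∑ j ∈ Finset.range (2 ^ u), Pso (sl τ u j) (mm τ u j) (mp τ u j) ζ ≤ C' := by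
    intro ζ hζ
    exact (hP u _ _ _ _ _ _ _ _ hsys ζ hζ).trans (le_max_left _ _)
  have hs : ∀ j < 2 ^ u, |sl τ u j| ≤ 1 := fun j _ => hG.1 _
  set κ : ℕ := {i : ℕ | 1 ≤ i ∧ 1 ≤ (2 : ℝ) ^ u * elt τ (th ξ) i}.ncard with hκ
  have hlev : (2 : ℝ) ^ u * elt τ (th ξ) (κ + 1) < 1 := lev_set hCN hG hp hGP u (th ξ)
  have h2u : (0 : ℝ) < (2 : ℝ) ^ u := by positivity
  -- far
  have hfar := far_sum hPT hOCT u (sl τ u) (mm τ u) (mp τ u) C'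
    (fun j => Pso (sl τ u j) (mm τ u j) (mp τ u j)) (fun j ζ => pso_nonneg _ _ _ _)
    (fun j ζ => le_refl _) hC'1 hs hps (κ + 2) ξ hξ
  -- near
  set N : Finset ℕ := (Finset.range (2 ^ u)).filter
    (fun j => |sl τ u j - th ξ| ≤ (2 : ℝ) ^ (-((κ + 2 : ℕ) : ℤ))) with hN
  have hNcard : N.card ≤ 1 := by
    have h1 := (hCN φ τ hG u (κ + 2) (th ξ)).1
    have h2 : (nn τ u (th ξ) (κ + 2) : ℝ) = N.card := by
      unfold nn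
      have h3 : {j : ℕ | j < 2 ^ u ∧ |sl τ u j - th ξ| ≤ (2 : ℝ) ^ (-((κ + 2 : ℕ) : ℤ))} =
          (N : Set ℕ) := by
        ext j
        rw [hN, Finset.coe_filter]
        simp
      rw [h3, Set.ncard_coe_finset]
    have h4 : elt τ (th ξ) (κ + 2) ≤ elt τ (th ξ) (κ + 1) := elt_anti hCN hG (th ξ) (by omega)
    have h5 : (N.card : ℝ) < 2 := by
      rw [← h2]
      have h6 : (2 : ℝ) ^ u * elt τ (th ξ) (κ + 2) ≤ (2 : ℝ) ^ u * elt τ (th ξ) (κ + 1) := by gcongr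
      linarith
    have h7 : N.card < 2 := by exact_mod_cast h5
    omega
  have hmm : ∀ j ∈ N, mm τ u j ≤ κ + 2 + u := by
    intro j hj
    rw [hN, Finset.mem_filter, Finset.mem_range] at hj
    by_contra hc
    rw [not_le] at hc
    have h1 := ((hCQ φ τ (A ^ (1 / p)) p 0 hG hgap hA1 (by linarith) u (by omega)).1 j hj.1).1
      (κ + 2) hc.le
    have h2 := ((hCN φ τ hG u (κ + 1) (sl τ u j)).2.2.2.2.2.2 (th ξ) hj.2).1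
    have h3 := h1.1.trans h2
    rw [div_le_iff₀ h2u] at h3
    linarith
  have hnear : ∑' k : ℤ, ∑ j ∈ N, ENNReal.ofReal (Pso (sl τ u j) (mm τ u j) (mp τ u j)
      ((2 : ℝ) ^ k • ξ)) ≤ ENNReal.ofReal (((κ + 2 + u : ℕ) : ℝ) + 8) := by
    rw [Summable.tsum_finsetSum (fun _ _ => ENNReal.summable)]
    calc ∑ j ∈ N, ∑' k : ℤ, ENNReal.ofReal (Pso (sl τ u j) (mm τ u j) (mp τ u j) ((2 : ℝ) ^ k • ξ))
        ≤ ∑ _j ∈ N, ENNReal.ofReal (((κ + 2 + u : ℕ) : ℝ) + 8) :=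
          Finset.sum_le_sum (fun j hj => one_chord hOCT _ _ _ _ (hmm j hj) ξ hξ)
      _ = N.card • ENNReal.ofReal (((κ + 2 + u : ℕ) : ℝ) + 8) := by rw [Finset.sum_const]
      _ ≤ 1 • ENNReal.ofReal (((κ + 2 + u : ℕ) : ℝ) + 8) := by
          gcongr
      _ = _ := one_nsmul _
  have hsplit : ∀ k : ℤ, ∑ j ∈ Finset.range (2 ^ u),
      ENNReal.ofReal (Pso (sl τ u j) (mm τ u j) (mp τ u j) ((2 : ℝ) ^ k • ξ)) =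
      ∑ j ∈ N, ENNReal.ofReal (Pso (sl τ u j) (mm τ u j) (mp τ u j) ((2 : ℝ) ^ k • ξ)) +
      ∑ j ∈ (Finset.range (2 ^ u)).filter
        (fun j => ¬ |sl τ u j - th ξ| ≤ (2 : ℝ) ^ (-((κ + 2 : ℕ) : ℤ))),
        ENNReal.ofReal (Pso (sl τ u j) (mm τ u j) (mp τ u j) ((2 : ℝ) ^ k • ξ)) := by
    intro k
    rw [hN, Finset.sum_filter_add_sum_filter_not]
  rw [tsum_congr hsplit, ENNReal.tsum_add]
  refine (add_le_add hnear hfar).trans ?_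
  rw [← ENNReal.ofReal_add (by positivity) (by positivity)]
  apply ENNReal.ofReal_le_ofReal
  have hk0 : (0 : ℝ) ≤ (κ : ℝ) := Nat.cast_nonneg _
  have hu0 : (0 : ℝ) ≤ (u : ℝ) := Nat.cast_nonneg _
  push_cast
  nlinarith [mul_nonneg (by linarith : (0 : ℝ) ≤ C') hk0, mul_nonneg (by linarith : (0 : ℝ) ≤ C') hu0]

end Pool.Agent.Helper45.EQ
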